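import Pool.Agent.helper65.GD.SpecE

/-!
# gdm:PWC: the coefficients of the powers of a spirallike function
-/

set_option autoImplicit false

namespace Pool.Agent.GD

open Finset Metric Filter Topology

theorem PWC_coeff_zero (f : ℂ → ℂ) : N2b689f5b.coeff f 0 = f 0 := by
  simp [N2b689f5b.coeff]

theorem PWC_coeff_one (f : ℂ → ℂ) : N2b689f5b.coeff f 1 = deriv f 0 := by
  simp [N2b689f5b.coeff, iteratedDeriv_one]

/-- The differential equation for the powers, in terms of coefficients. -/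
theorem PWC_eqn0 (hCO1 : CO1_stmt) (hCO2 : CO2_stmt) (hCO3 : CO3_stmt) (hCO4 : CO4_stmt) (φ q : ℂ → ℂ)
    (hφ : DifferentiableOn ℂ φ (ball 0 1)) (hq : DifferentiableOn ℂ q (ball 0 1))
    (he : ∀ z ∈ ball (0 : ℂ) 1, z * deriv φ z = q z * φ z) (m n : ℕ) :
    (n : ℂ) * N2b689f5b.coeff (fun z => φ z ^ m) n =
      m * cv (N2b689f5b.coeff q) (N2b689f5b.coeff (fun z => φ z ^ m)) n := by
  have hφm : DifferentiableOn ℂ (fun z => φ z ^ m) (ball 0 1) := hφ.pow m
  have h1 : Ser (fun n => (n : ℂ) * N2b689f5b.coeff (fun z => φ z ^ m) n)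
      (fun z => z * deriv (fun z => φ z ^ m) z) := (hCO4 _ _ (hCO1 _ hφm)).2
  have h2 := hCO3 _ _ _ _ (hCO1 _ hφm) (hCO1 _ hq)
  have h3 : Ser (fun n => (m : ℂ) * cv (N2b689f5b.coeff q) (N2b689f5b.coeff (fun z => φ z ^ m)) n)
      (fun z => z * deriv (fun z => φ z ^ m) z) := by
    intro z hz
    have h4 := (h2 z hz).mul_left (m : ℂ)
    have hd : DifferentiableAt ℂ φ z := hφ.differentiableAt (isOpen_ball.mem_nhds hz)
    have h5 : z * deriv (fun z => φ z ^ m) z = (m : ℂ) * (φ z ^ m * q z) := by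
      have h6 : deriv (fun z => φ z ^ m) z = (m : ℂ) * φ z ^ (m - 1) * deriv φ z :=
        (hd.hasDerivAt.pow m).deriv
      rw [h6]
      rcases m with _ | m
      · simp
      · rw [Nat.add_sub_cancel, pow_succ]
        linear_combination ((m + 1 : ℕ) : ℂ) * φ z ^ m * he z hz
    have h8 : (fun n => ((m : ℂ) * cv (N2b689f5b.coeff q) (N2b689f5b.coeff (fun z => φ z ^ m)) n) * z ^ n) =
        fun n => (m : ℂ) * ((∑ r ∈ range (n + 1),
          N2b689f5b.coeff (fun z => φ z ^ m) r * N2b689f5b.coeff q (n - r)) * z ^ n) := by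
      funext n
      rw [← mul_assoc]
      congr 2
      exact Finset.sum_congr rfl fun r _ => mul_comm _ _
    show HasSum (fun n => ((m : ℂ) * cv (N2b689f5b.coeff q) (N2b689f5b.coeff (fun z => φ z ^ m)) n) * z ^ n)
      (z * deriv (fun z => φ z ^ m) z)
    rw [h5, h8]
    exact h4
  have h7 := hCO2 _ _ _ h1 h3
  exact congrFun h7 n

/-- The low coefficients vanish. -/
theorem PWC_low0 (Q F : ℕ → ℂ) (m : ℕ) (hQ : Q 0 = 1) (he : ∀ n : ℕ, (n : ℂ) * F n = m * cv Q F n) :
    ∀ n : ℕ, n < m → F n = 0 := by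
  intro n
  induction n using Nat.strong_induction_on with
  | _ n ih =>
    intro hn
    have h1 := he n
    have h2 : cv Q F n = F n := by
      rw [cv, Finset.sum_range_succ, Nat.sub_self, hQ, one_mul]
      rw [Finset.sum_eq_zero, zero_add]
      intro r hr
      rw [ih r (Finset.mem_range.1 hr) (lt_trans (Finset.mem_range.1 hr) hn), mul_zero]
    rw [h2] at h1
    have h3 : ((n : ℂ) - m) * F n = 0 := by linear_combination h1
    rcases mul_eq_zero.1 h3 with h4 | h4
    · exfalso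
      have h5 : (n : ℂ) = m := sub_eq_zero.1 h4
      have h6 : n = m := by exact_mod_cast h5
      omega
    · exact h4

theorem PWC (hCO1 : CO1_stmt) (hCO2 : CO2_stmt) (hCO3 : CO3_stmt) (hCO4 : CO4_stmt) : PWC_stmt := by
  intro φ q hφ h0 h1 hq hq0 he
  have hQ0 : N2b689f5b.coeff q 0 = 1 := by rw [PWC_coeff_zero, hq0]
  have hlow : ∀ m n : ℕ, n < m → N2b689f5b.coeff (fun z => φ z ^ m) n = 0 := fun m =>
    PWC_low0 _ _ m hQ0 (PWC_eqn0 hCO1 hCO2 hCO3 hCO4 φ q hφ hq he m)
  refine ⟨?_, ?_, ?_⟩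
  · intro m n hn
    show N2b689f5b.coeff (fun z => φ z ^ m) n / deriv φ 0 ^ m = 0
    rw [hlow m n hn, zero_div]
  · intro m
    show N2b689f5b.coeff (fun z => φ z ^ m) m / deriv φ 0 ^ m = 1
    rw [div_eq_one_iff_eq (pow_ne_zero m h1)]
    induction m with
    | zero => rw [PWC_coeff_zero]; simp
    | succ m ih =>
      have h2 : Ser (N2b689f5b.coeff (fun z => φ z ^ (m + 1))) (fun z => φ z ^ m * φ z) := by
        have h3 := hCO1 (fun z => φ z ^ (m + 1)) (hφ.pow (m + 1))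
        intro z hz
        have h4 := h3 z hz
        have h5 : φ z ^ (m + 1) = φ z ^ m * φ z := pow_succ _ _
        show HasSum _ (φ z ^ m * φ z)
        rw [← h5]
        exact h4
      have h3 := hCO3 _ _ _ _ (hCO1 (fun z => φ z ^ m) (hφ.pow m)) (hCO1 _ hφ)
      have h4 := congrFun (hCO2 _ _ _ h2 h3) (m + 1)
      rw [h4]
      show ∑ r ∈ range (m + 1 + 1), N2b689f5b.coeff (fun z => φ z ^ m) r * N2b689f5b.coeff φ (m + 1 - r) = _
      rw [Finset.sum_range_succ, Finset.sum_range_succ, Finset.sum_eq_zero, Nat.sub_self, PWC_coeff_zero φ, h0,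
        mul_zero, add_zero, zero_add, ih, Nat.add_sub_cancel_left, PWC_coeff_one, pow_succ]
      intro r hr
      rw [hlow m r (Finset.mem_range.1 hr), zero_mul]
  · intro m n
    show (n : ℂ) * (N2b689f5b.coeff (fun z => φ z ^ m) n / deriv φ 0 ^ m) =
      m * cv (N2b689f5b.coeff q) (fun n => N2b689f5b.coeff (fun z => φ z ^ m) n / deriv φ 0 ^ m) n
    have h2 : cv (N2b689f5b.coeff q) (fun n => N2b689f5b.coeff (fun z => φ z ^ m) n / deriv φ 0 ^ m) n =
        cv (N2b689f5b.coeff q) (N2b689f5b.coeff (fun z => φ z ^ m)) n / deriv φ 0 ^ m := by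
      rw [cv, cv, Finset.sum_div]
      exact Finset.sum_congr rfl fun r _ => (mul_div_assoc _ _ _).symm
    rw [h2, ← mul_div_assoc, ← mul_div_assoc, PWC_eqn0 hCO1 hCO2 hCO3 hCO4 φ q hφ hq he m n]

end Pool.Agent.GD
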